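import Mathlib

set_option autoImplicit false
set_option linter.unusedSectionVars false

namespace Pool.Agent.V8H26.TX

open Set Filter Topology MeasureTheory

section aux

variable {G X : Type} [TopologicalSpace G] [PolishSpace G] [MeasurableSpace X]

lemma le_of_dense {K D : Set G} (hDK : D ⊆ K) (hd : K ⊆ closure D) {F : G → ℝ}
    (hF : Continuous F) (a : ℝ) : (∀ g ∈ K, F g ≤ a) ↔ ∀ g ∈ D, F g ≤ a := by
  constructor
  · exact fun h g hg => h g (hDK hg)
  · intro h g hg
    have h1 : closure D ⊆ {g | F g ≤ a} :=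
      closure_minimal (fun g hg => h g hg) (isClosed_le hF continuous_const)
    exact h1 (hd hg)

lemma exists_dense (K : Set G) : ∃ D : Set G, D ⊆ K ∧ D.Countable ∧ K ⊆ closure D :=
  (TopologicalSpace.IsSeparable.of_separableSpace K).exists_countable_dense_subset

lemma bdd_image {K : Set G} (hK : IsCompact K) {F : G → ℝ} (hF : Continuous F) :
    BddAbove (F '' K) := (hK.image hF).bddAbove

lemma bdd_image' {K : Set G} (hK : IsCompact K) {F : G → ℝ} (hF : Continuous F) :
    BddBelow (F '' K) := (hK.image hF).bddBelow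

lemma sSup_le_iff' {K : Set G} (hK : IsCompact K) (hne : K.Nonempty) {F : G → ℝ}
    (hF : Continuous F) (a : ℝ) : sSup (F '' K) ≤ a ↔ ∀ g ∈ K, F g ≤ a := by
  rw [csSup_le_iff (bdd_image hK hF) (hne.image F)]
  simp

lemma meas_sup {K : Set G} (hK : IsCompact K) (hne : K.Nonempty) {F : X → G → ℝ}
    (hc : ∀ x, Continuous (F x)) (hm : ∀ g, Measurable fun x => F x g) :
    Measurable fun x => sSup (F x '' K) := by
  obtain ⟨D, hDK, hDc, hD⟩ := exists_dense K
  apply measurable_of_Iic
  intro a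
  have h1 : (fun x => sSup (F x '' K)) ⁻¹' Iic a = ⋂ g ∈ D, {x | F x g ≤ a} := by
    ext x
    rw [mem_preimage, mem_Iic, sSup_le_iff' hK hne (hc x), le_of_dense hDK hD (hc x)]
    simp
  rw [h1]
  exact MeasurableSet.biInter hDc fun g _ => measurableSet_le (hm g) measurable_const

lemma sInf_eq_neg {K : Set G} (F : G → ℝ) : sInf (F '' K) = - sSup ((fun g => - F g) '' K) := by
  rw [Real.sInf_def]
  congr 2
  ext r
  simp only [Set.mem_neg, Set.mem_image]
  constructor
  · rintro ⟨g, hg, h⟩
    exact ⟨g, hg, by rw [h, neg_neg]⟩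
  · rintro ⟨g, hg, h⟩
    exact ⟨g, hg, by rw [← h, neg_neg]⟩

lemma meas_inf {K : Set G} (hK : IsCompact K) (hne : K.Nonempty) {F : X → G → ℝ}
    (hc : ∀ x, Continuous (F x)) (hm : ∀ g, Measurable fun x => F x g) :
    Measurable fun x => sInf (F x '' K) := by
  have h1 := meas_sup hK hne (F := fun x g => - F x g) (fun x => (hc x).neg) (fun g => (hm g).neg)
  have h2 : (fun x => sInf (F x '' K)) = fun x => - sSup ((fun g => - F x g) '' K) := by
    funext x
    exact sInf_eq_neg _
  rw [h2]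
  exact h1.neg

end aux

section rho

variable {X : Type} (Ψ : ℕ → X → ℝ)

/-- The distance of two points. -/
noncomputable def rho (x y : X) : ℝ := ∑' k, (1 / 2 : ℝ) ^ k * |Ψ k x - Ψ k y|

variable {Ψ}

lemma term_bound (h01 : ∀ k x, 0 ≤ Ψ k x ∧ Ψ k x ≤ 1) (k : ℕ) (x y : X) :
    ‖(1 / 2 : ℝ) ^ k * |Ψ k x - Ψ k y|‖ ≤ (1 / 2 : ℝ) ^ k := by
  rw [norm_mul, norm_pow, Real.norm_eq_abs, Real.norm_eq_abs, abs_abs]
  have h1 : |Ψ k x - Ψ k y| ≤ 1 := by
    rw [abs_le]
    constructor <;> linarith [(h01 k x).1, (h01 k x).2, (h01 k y).1, (h01 k y).2]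
  have h2 : |(1 / 2 : ℝ)| = 1 / 2 := abs_of_pos (by norm_num)
  rw [h2]
  exact mul_le_of_le_one_right (by positivity) h1

lemma summ (h01 : ∀ k x, 0 ≤ Ψ k x ∧ Ψ k x ≤ 1) (x y : X) :
    Summable fun k => (1 / 2 : ℝ) ^ k * |Ψ k x - Ψ k y| :=
  Summable.of_norm_bounded (summable_geometric_of_lt_one (by norm_num) (by norm_num))
    (fun k => term_bound h01 k x y)

lemma rho_nonneg (x y : X) : 0 ≤ rho Ψ x y :=
  tsum_nonneg fun k => by positivity

lemma rho_eq_zero (h01 : ∀ k x, 0 ≤ Ψ k x ∧ Ψ k x ≤ 1) (hsep : ∀ x y, (∀ k, Ψ k x = Ψ k y) → x = y)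
    (x y : X) : rho Ψ x y = 0 ↔ x = y := by
  constructor
  · intro h
    apply hsep
    intro k
    have h1 : (1 / 2 : ℝ) ^ k * |Ψ k x - Ψ k y| ≤ rho Ψ x y :=
      (summ h01 x y).le_tsum k fun j _ => by positivity
    rw [h] at h1
    have h2 : 0 ≤ (1 / 2 : ℝ) ^ k * |Ψ k x - Ψ k y| := by positivity
    have h3 : (1 / 2 : ℝ) ^ k * |Ψ k x - Ψ k y| = 0 := le_antisymm h1 h2
    have h4 := (mul_eq_zero.1 h3).resolve_left (by positivity)
    exact sub_eq_zero.1 (abs_eq_zero.1 h4)
  · rintro rfl
    unfold rho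
    simp

lemma rho_cont {T : Type} [TopologicalSpace T] (h01 : ∀ k x, 0 ≤ Ψ k x ∧ Ψ k x ≤ 1) {a b : T → X}
    (ha : ∀ k, Continuous fun t => Ψ k (a t)) (hb : ∀ k, Continuous fun t => Ψ k (b t)) :
    Continuous fun t => rho Ψ (a t) (b t) :=
  continuous_tsum (fun k => continuous_const.mul ((ha k).sub (hb k)).abs)
    (summable_geometric_of_lt_one (r := 1 / 2) (by norm_num) (by norm_num))
    (fun k t => term_bound h01 k (a t) (b t))

lemma rho_meas {T : Type} [MeasurableSpace T] (h01 : ∀ k x, 0 ≤ Ψ k x ∧ Ψ k x ≤ 1) {a b : T → X}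
    (ha : ∀ k, Measurable fun t => Ψ k (a t)) (hb : ∀ k, Measurable fun t => Ψ k (b t)) :
    Measurable fun t => rho Ψ (a t) (b t) := by
  apply measurable_of_tendsto_metrizable (f := fun n : ℕ => fun t =>
    ∑ k ∈ Finset.range n, (1 / 2 : ℝ) ^ k * |Ψ k (a t) - Ψ k (b t)|)
  · intro n
    apply Finset.measurable_fun_sum
    intro k _
    exact measurable_const.mul (((ha k).sub (hb k)).abs)
  · rw [tendsto_pi_nhds]
    intro t
    exact (summ h01 (a t) (b t)).hasSum.tendsto_sum_nat

end rho

theorem exists_e {G X : Type} [TopologicalSpace G] [Group G] [IsTopologicalGroup G]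
    [PolishSpace G] [MeasurableSpace G] [BorelSpace G] [MeasurableSpace X] [StandardBorelSpace X]
    [MulAction G X] (hm : Measurable fun p : G × X => p.1 • p.2) {Ψ : ℕ → X → ℝ}
    (hΨ : ∀ k, Measurable (Ψ k)) (h01 : ∀ k x, 0 ≤ Ψ k x ∧ Ψ k x ≤ 1)
    (hΨc : ∀ k x, Continuous fun g : G => Ψ k (g • x)) (hsep : ∀ x y, (∀ k, Ψ k x = Ψ k y) → x = y)
    {f : X → ℝ} (hf : Measurable f) (hfc : ∀ x, Continuous fun g : G => f (g • x)) {U C : Set G}
    (hU : IsCompact U) (hU1 : (1 : G) ∈ U) (hC : IsCompact C) (hC1 : (1 : G) ∈ C) :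
    ∃ e : X → ℝ, Measurable e ∧ (∀ x, Continuous fun g : G => e (g • x)) ∧
      ∀ x, 0 ≤ e x ↔ (1 / 2 ≤ f x ∧ ∀ m ∈ C, f (m • x) ≤ 1 / 4 ∨ ∃ u ∈ U, u • x = m • x) := by
  have hs : ∀ g : G, Measurable fun x : X => g • x := fun g =>
    hm.comp (measurable_const.prodMk measurable_id)
  -- the distance of `m • x` from the points `u • x`
  set δ : X → G → ℝ := fun x m => sInf ((fun u => rho Ψ (u • x) (m • x)) '' U) with hδ
  have hδc : ∀ (T : Type) [TopologicalSpace T] (a : T → G) (m : T → G) (x : X), Continuous a →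
      Continuous m → Continuous fun t => δ (a t • x) (m t) := by
    intro T _ a m x ha hmc
    have h1 : Continuous (Function.uncurry fun (t : T) (u : G) =>
        rho Ψ (u • (a t • x)) (m t • (a t • x))) := by
      apply rho_cont h01
      · intro k
        have h2 : (fun p : T × G => Ψ k (p.2 • (a p.1 • x))) =
            (fun g : G => Ψ k (g • x)) ∘ fun p : T × G => p.2 * a p.1 := by
          funext p
          simp [mul_smul]
        show Continuous fun p : T × G => Ψ k (p.2 • (a p.1 • x))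
        rw [h2]
        exact (hΨc k x).comp (continuous_snd.mul (ha.comp continuous_fst))
      · intro k
        have h2 : (fun p : T × G => Ψ k (m p.1 • (a p.1 • x))) =
            (fun g : G => Ψ k (g • x)) ∘ fun p : T × G => m p.1 * a p.1 := by
          funext p
          simp [mul_smul]
        show Continuous fun p : T × G => Ψ k (m p.1 • (a p.1 • x))
        rw [h2]
        exact (hΨc k x).comp ((hmc.comp continuous_fst).mul (ha.comp continuous_fst))
    exact hU.continuous_sInf h1
  have hδm : ∀ m, Measurable fun x => δ x m := by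
    intro m
    apply meas_inf hU ⟨1, hU1⟩ (F := fun x u => rho Ψ (u • x) (m • x))
    · intro x
      exact rho_cont h01 (fun k => hΨc k x) (fun k => continuous_const)
    · intro u
      exact rho_meas h01 (fun k => (hΨ k).comp (hs u)) (fun k => (hΨ k).comp (hs m))
  have hδ0 : ∀ x m, δ x m ≤ 0 ↔ ∃ u ∈ U, u • x = m • x := by
    intro x m
    have hcont : Continuous fun u : G => rho Ψ (u • x) (m • x) :=
      rho_cont h01 (fun k => hΨc k x) (fun k => continuous_const)
    constructor
    · intro h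
      obtain ⟨u, hu, hmin⟩ := hU.exists_sInf_image_eq ⟨1, hU1⟩ hcont.continuousOn
      refine ⟨u, hu, (rho_eq_zero h01 hsep _ _).1 (le_antisymm ?_ (rho_nonneg _ _))⟩
      rw [← hmin]
      exact h
    · rintro ⟨u, hu, h⟩
      have h1 : δ x m ≤ rho Ψ (u • x) (m • x) := csInf_le (bdd_image' hU hcont) ⟨u, hu, rfl⟩
      rwa [(rho_eq_zero h01 hsep _ _).2 h] at h1
  -- the supremum over `C`
  set σ : X → ℝ := fun x => sSup ((fun m => min (f (m • x) - 1 / 4) (δ x m)) '' C) with hσ
  have hσc' : ∀ x, Continuous fun m : G => min (f (m • x) - 1 / 4) (δ x m) := by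
    intro x
    apply Continuous.min
    · exact (hfc x).sub continuous_const
    · have h1 := hδc G (fun _ => 1) id x continuous_const continuous_id
      simpa using h1
  have hσc : ∀ x, Continuous fun g : G => σ (g • x) := by
    intro x
    have h1 : Continuous (Function.uncurry fun (g : G) (m : G) =>
        min (f (m • g • x) - 1 / 4) (δ (g • x) m)) := by
      apply Continuous.min
      · apply Continuous.sub _ continuous_const
        have h2 : (fun p : G × G => f (p.2 • p.1 • x)) =
            (fun g : G => f (g • x)) ∘ fun p : G × G => p.2 * p.1 := by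
          funext p
          simp [mul_smul]
        show Continuous fun p : G × G => f (p.2 • p.1 • x)
        rw [h2]
        exact (hfc x).comp (continuous_snd.mul continuous_fst)
      · exact hδc (G × G) (fun p => p.1) (fun p => p.2) x continuous_fst continuous_snd
    exact hC.continuous_sSup h1
  have hσm : Measurable σ := by
    apply meas_sup hC ⟨1, hC1⟩ hσc'
    intro m
    exact ((hf.comp (hs m)).sub measurable_const).min (hδm m)
  refine ⟨fun x => min (f x - 1 / 2) (- σ x), (hf.sub measurable_const).min hσm.neg, ?_, ?_⟩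
  · intro x
    exact ((hfc x).sub continuous_const).min (hσc x).neg
  · intro x
    rw [le_min_iff, sub_nonneg, neg_nonneg, hσ, sSup_le_iff' hC ⟨1, hC1⟩ (hσc' x)]
    refine and_congr_right fun _ => forall₂_congr fun m _ => ?_
    rw [min_le_iff, sub_nonpos, hδ0]

end Pool.Agent.V8H26.TX
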