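import Pool.Agent.V8H26.TX.T4

set_option autoImplicit false
set_option linter.unusedSectionVars false

namespace Pool.Agent.V8H26.TX

open Set Filter Topology MeasureTheory

theorem exists_E {G X : Type} [TopologicalSpace G] [Group G] [IsTopologicalGroup G]
    [PolishSpace G] [MeasurableSpace G] [BorelSpace G] [MeasurableSpace X] [StandardBorelSpace X]
    [MulAction G X] (hm : Measurable fun p : G × X => p.1 • p.2) {e : X → ℝ} (he : Measurable e)
    (hec : ∀ x, Continuous fun g : G => e (g • x)) {U : Set G} (hU : IsCompact U)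
    (hU1 : (1 : G) ∈ U) :
    ∃ E : X → ℝ, Measurable E ∧ (∀ x, Continuous fun g : G => E (g • x)) ∧
      ∀ x, 0 ≤ E x ↔ ∃ u ∈ U, 0 ≤ e (u • x) := by
  have hs : ∀ g : G, Measurable fun x : X => g • x := fun g =>
    hm.comp (measurable_const.prodMk measurable_id)
  refine ⟨fun x => sSup ((fun u => e (u • x)) '' U), ?_, ?_, ?_⟩
  · exact meas_sup hU ⟨1, hU1⟩ (F := fun x u => e (u • x)) hec (fun u => he.comp (hs u))
  · intro x
    have h1 : Continuous (Function.uncurry fun (g : G) (u : G) => e (u • g • x)) := by
      have h2 : (fun p : G × G => e (p.2 • p.1 • x)) =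
          (fun g : G => e (g • x)) ∘ fun p : G × G => p.2 * p.1 := by
        funext p
        simp [mul_smul]
      show Continuous fun p : G × G => e (p.2 • p.1 • x)
      rw [h2]
      exact (hec x).comp (continuous_snd.mul continuous_fst)
    exact hU.continuous_sSup h1
  · intro x
    constructor
    · intro h
      obtain ⟨u, hu, hmax⟩ := hU.exists_sSup_image_eq ⟨1, hU1⟩ (hec x).continuousOn
      refine ⟨u, hu, ?_⟩
      rw [← hmax]
      exact h
    · rintro ⟨u, hu, h⟩
      exact h.trans (le_csSup (bdd_image hU (hec x)) ⟨u, hu, rfl⟩)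

end Pool.Agent.V8H26.TX
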